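import Pool.Agent.Q58.LG.TenG

/-!
MP_4329d7_ag, Q1: tensor differentials on the varieties with a nonconstant correspondence of small
degree to a generic complete intersection, or to a finite image of a cover of it.

Let `k` be a subfield of the complex numbers, with algebraic closure `k'` in `ℂ`. Let `V` be a closed
subset of `ℙⁿ`, defined over `k'`, of dimension at most `m`, and let `F_a` be finitely many forms
over `ℂ` of degrees `d_a`, whose coefficients are all together algebraically independent over `k`
(this holds for very general forms, if `k` is countable). Let `X₀` be the intersection of `V` with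
the hypersurfaces `F_a = 0`. Let `W = {Ψ = 0}` and `Y = {Φ = 0}` be projective varieties over `ℂ`,
with a morphism `B : W → X₀` and a surjective morphism `G : W → Y` with fibres of at most `t`
points, both given by forms of positive degree without common zeros on `W` (so they are finite). For
example `W = Y` can be any variety which is finite over `X₀`, with `t = 1`.

Let `X` be a variety of arbitrary dimension `w`, with function field `L`, and `X' ⇢ X` a generically
finite dominant rational map of degree `r`, where `X'` has the function field `E`. If there is a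
nonconstant rational map `z : X' ⇢ Y`, and `2 m + r t ≤ ∑ (d_a + 1) + 1`, then the smooth projective
models of `X` have a nonzero holomorphic tensor differential; in particular they are not rationally
connected, and Q1 holds for them. No assumption is made on the map `z`: its fibres and its image may
have any dimension, and `X` need not have a map to `Y`. In other words, if all holomorphic tensor
differentials of a smooth projective variety `X` vanish (for example if `X` is rationally connected),
then all multivalued rational maps of degree at most `r` from `X` to `Y` are constant.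

The rational map `z` is given by the vector of its homogeneous coordinates in `E`; it is nonconstant
if some ratio of two coordinates is not in `ℂ` (`Nonconst`, `Pool/Agent/Q58/LG/TenG.lean`).
`TensorVanish ℂ L w` (`Pool/Agent/W619/TW/MDefs.lean`): `H⁰ (X, (Ω¹) ^ ⊗ i) = 0` for all `i ≥ 1` on the
smooth projective models `X` of the function field `L` of dimension `w`. `Mor`, `Onto`, `FibresLe`
are in `Pool/Agent/Y221/FQ/Defs.lean`, `DimLE` in `Pool/Agent/TH145/MG/Dim.lean` and `eqs V F`, the
equations of `V` together with the forms `F_a`, in `Pool/Agent/Q58/FI/Eqs.lean`.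
-/

set_option autoImplicit false

namespace Pool.Agent.Results.MP_4329d7_ag.CorrespondenceTensors

open MvPolynomial FF
open Pool.Agent.TH145.MG (DimLE)
open Pool.Agent.W602.GT (IsForm val)
open Pool.Agent.W619.TW (TensorVanish)
open Pool.Agent.Y221.FQ (Mor Onto FibresLe)
open Pool.Agent.Q58.FI (eqs)
open Pool.Agent.Q58.LG (Nonconst)

theorem result {k : Type} [Field k] [Algebra k ℂ] {n m t l M : ℕ}
    -- forms of degrees `d a`, whose coefficients are algebraically independent over `k`
    {A : Type} [Fintype A] (d : A → ℕ)
    (F : A → MvPolynomial (Fin (n + 1)) ℂ) (hF : ∀ a, (F a).IsHomogeneous (d a))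
    (hgen : AlgebraicIndependent k
      fun p : (a : A) × {I : Fin (n + 1) →₀ ℕ // I.degree = d a} => (F p.1).coeff p.2.1)
    -- a closed set `V` of dimension at most `m`
    (V : Set (MvPolynomial (Fin (n + 1)) (algebraicClosure k ℂ)))
    (hVh : ∀ f ∈ V, ∃ e, f.IsHomogeneous e) (hV : DimLE (algebraicClosure k ℂ) V m)
    -- the varieties `W = {Ψ = 0}` and `Y = {Φ = 0}`
    {κ μ : Type} (Ψ : κ → MvPolynomial (Fin (l + 1)) ℂ) (hΨ : ∀ e, IsForm (Ψ e))
    (Φ : μ → MvPolynomial (Fin (M + 1)) ℂ)
    -- a morphism from `W` to the intersection
    (B : Fin (n + 1) → MvPolynomial (Fin (l + 1)) ℂ) (hB : Mor Ψ (eqs V F) B)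
    -- a surjective morphism from `W` to `Y`, with fibres of at most `t` points
    (G : Fin (M + 1) → MvPolynomial (Fin (l + 1)) ℂ) (hG : Mor Ψ Φ G) (hon : Onto Ψ Φ G)
    (ht : 1 ≤ t) (hfib : FibresLe Ψ G t)
    -- `X` has the function field `L`, and `X'` has the function field `E`
    {L E : Type} [Field L] [Field E] [Algebra ℂ L] [Algebra ℂ E] [Algebra L E]
    [IsScalarTower ℂ L E] [FiniteDimensional L E] [Algebra.EssFiniteType ℂ L] {w : ℕ}
    (hw : Algebra.trdeg ℂ L = w)
    -- a nonconstant rational map from `X'` to `Y`
    (z : Fin (M + 1) → E) (hz : z ≠ 0) (hzΦ : ∀ e, val z (Φ e) = 0) (hnc : Nonconst z)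
    (hr : 2 * m + Module.finrank L E * t ≤ ∑ a, (d a + 1) + 1) :
    ¬ TensorVanish ℂ L w := by
  have h1 : 1 ≤ Module.finrank L E * t := Nat.mul_pos Module.finrank_pos ht
  exact Pool.Agent.Q58.LG.ten_im (N := Module.finrank L E * t - 1) hVh hV (by omega) hF
    hgen.algebraicClosure hΨ hB hG hon hfib hw hz hzΦ hnc (by omega)

end Pool.Agent.Results.MP_4329d7_ag.CorrespondenceTensors
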