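import Pool.Agent.TH585.SV.Fib6

/-!
# Varieties without tensor differentials and the multiplicities of members of linear systems

Let `X` be a smooth projective variety without nonzero holomorphic tensor differentials of positive
degree (the hypothesis of Q1), and let `|V|` be any linear system on `X` without fixed components, of
dimension `n`, whose rational map `X ⇢ ℙⁿ` has an image of dimension `d ≥ 1`; the image may be any
nondegenerate variety and the fibres may be any varieties of dimension `e`. Let `D i` (`i < q`) be
finitely many members of `|V|` which span `V`, in arbitrary position, and let `c` be the number of the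
components of this configuration: `V` is the direct sum of `c` nonzero subspaces such that each `D i`
belongs to one of them, the component of `D i`, and there is no such decomposition into `c + 1`
subspaces.

The theorem: `X` has a prime divisor `P` which is a component of some `D i`, such that the
multiplicities of `P` in two members `D i`, `D i'` of the same component of the configuration always
differ by less than `(n + 3 - c) (n - d + 1) (n - d + 2) / 2`. If `c = 1` this means that all
multiplicities of `P` in the divisors `D i` are less than this number, and then
`(n + 1) (n - d + 1) (n - d + 2) / 2` can be taken instead if there are at least `n + 3` different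
members.

In other words: if `X` has a linear system whose spanning members `D i` have larger multiplicities
along all their components, then `X` has a nonzero holomorphic tensor differential, so it is not
rationally connected, and Mumford's problem (Q1) has a positive answer for `X`.

The function-field language of the starting repository is used. `K` is the function field of `X`;
the prime divisors of `X` are places `P` of `K` (`Place`, `Divisorial`), `P.ord` is the order along
`P`, and `X` is given by the set of its prime divisors. The linear system is given by the finite
dimensional space `V` of rational functions: if `a` is the minimum of the orders at `P` of the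
members of `V` then the multiplicity of `P` in the divisor of the system which is given by `f ∈ V` is
`P.ord f - a`. A tensor differential of degree `m` is a `K`-multilinear function of `m` rational
vector fields (derivations of `K`); it is holomorphic if its values on vector fields which are
regular at `P` are regular at `P`, for all prime divisors `P` of `X` (`Ω¹` is locally free on the
smooth variety `X`, so sections extend over subsets of codimension two).
-/

set_option autoImplicit false

open FF Pool.Agent.W602.GT

namespace Pool.Agent.Results.MP_4329d7_ag.LinearSystemTensors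

/-- `ω` is a holomorphic tensor differential of degree `m` on `X`, a smooth projective variety of
dimension `M` which is given by the set of its prime divisors: a section of `(Ω¹) ^ ⊗ m`. -/
def IsHolomorphic {K : Type} [Field K] [Algebra ℂ K] (M : ℕ) (X : Set (Place ℂ K)) {m : ℕ}
    (ω : MultilinearMap K (fun _ : Fin m => Derivation ℂ K K) K) : Prop :=
  ∀ P ∈ X, Divisorial M P → ∀ D : Fin m → Derivation ℂ K K, (∀ j, DerReg P (D j)) → P.Reg (ω D)

/-- `H⁰ (X, (Ω¹) ^ ⊗ m) = 0` for all `m ≥ 1`. -/
def NoTensors {K : Type} [Field K] [Algebra ℂ K] (M : ℕ) (X : Set (Place ℂ K)) : Prop :=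
  ∀ m : ℕ, 1 ≤ m → ∀ ω : MultilinearMap K (fun _ : Fin m => Derivation ℂ K K) K,
    IsHolomorphic M X ω → ω = 0

/-- The function field of the image of the rational map which is given by the linear system `V`: the
field generated by the quotients of the members. -/
noncomputable def ImageField {K : Type} [Field K] [Algebra ℂ K] (V : Submodule ℂ K) :
    IntermediateField ℂ K :=
  IntermediateField.adjoin ℂ {y : K | ∃ f ∈ V, ∃ g ∈ V, y = f / g}

/-- `γ` is a decomposition of the configuration of the members `φ i` of `V` into `c` components: `V`
has a basis of `n + 1` elements `x a`, divided into `c` nonempty groups (`x a` is in the group `g a`),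
such that `φ i` is in the subspace spanned by the elements of the group `γ i`. -/
def Decomposition (n : ℕ) {q c : ℕ} {K : Type} [Field K] [Algebra ℂ K] (V : Submodule ℂ K)
    (φ : Fin q → K) (γ : Fin q → Fin c) : Prop :=
  ∃ (x : Fin (n + 1) → K) (g : Fin (n + 1) → Fin c), LinearIndependent ℂ x ∧
    Submodule.span ℂ (Set.range x) = V ∧ Function.Surjective g ∧
    ∀ i, φ i ∈ Submodule.span ℂ (x '' {a | g a = γ i})

/-- There are `r` members `φ i` of which no two are proportional. -/
def Different (r : ℕ) {q : ℕ} {K : Type} [Field K] [Algebra ℂ K] (φ : Fin q → K) : Prop :=
  ∃ τ : Fin r → Fin q, ∀ i j, i ≠ j → ∀ t : ℂ, φ (τ i) ≠ t • φ (τ j)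

/-- `a` is the order at `P` of the general member of `V`: the multiplicity of `P` in the divisor which
is given by `f ∈ V` is `P.ord f - a`. -/
def IsMinOrder {K : Type} [Field K] [Algebra ℂ K] (V : Submodule ℂ K) (P : Place ℂ K) (a : ℤ) :
    Prop :=
  (∀ f ∈ V, f = 0 ∨ a ≤ P.ord f) ∧ ∃ f ∈ V, f ≠ 0 ∧ P.ord f = a

/-- **Small multiplicities.** Let `K` be the function field of a smooth projective variety `X` of
dimension `d + e`, `d ≥ 1`, without nonzero holomorphic tensor differentials of positive degree, `V` a
linear system of dimension `n` on `X` whose rational map has an image of dimension `d`, `φ i` nonzero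
members which span `V`, `γ` their decomposition into `c` components (there is no decomposition into
`c + 1` components), and `R = n + 3 - c`, or `R = n + 1` if `c = 1` and there are `n + 3` different
members. Then there is a prime divisor `P` of `X` which is a component of one of the divisors of the
members `φ i`, such that the multiplicities of `P` in two members of the same component of the
configuration always differ by less than `R (n - d + 1) (n - d + 2) / 2`. -/
theorem result (d e n q c : ℕ) (hd : 1 ≤ d) (hdn : d ≤ n) (K : Type) [Field K] [Algebra ℂ K]
    (hK : Algebra.trdeg ℂ K = (d + e : ℕ)) (X : Set (Place ℂ K)) (hX : NoTensors (d + e) X)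
    (V : Submodule ℂ K) (hV : Algebra.trdeg ℂ (ImageField V) = d)
    (φ : Fin q → K) (hφ0 : ∀ i, φ i ≠ 0) (hφ : Submodule.span ℂ (Set.range φ) = V)
    (γ : Fin q → Fin c) (hγ : Decomposition n V φ γ)
    (hc : ∀ γ' : Fin q → Fin (c + 1), ¬ Decomposition n V φ γ')
    (R : ℕ) (hR : R + c = n + 3 ∨ (c = 1 ∧ Different (n + 3) φ ∧ R = n + 1)) :
    ∃ P ∈ X, Divisorial (d + e) P ∧ ∃ a : ℤ, IsMinOrder V P a ∧ (∃ i, P.ord (φ i) ≠ a) ∧
      ∀ i i', γ i' = γ i →
        2 * (P.ord (φ i) - P.ord (φ i')) < (R * ((n - d + 1) * (n - d + 2)) : ℕ) := by
  obtain ⟨k, rfl⟩ := Nat.exists_eq_add_of_le hdn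
  have e0 : d + k - d = k := Nat.add_sub_cancel_left d k
  rw [e0]
  by_contra hcon
  obtain ⟨M, hM, ω, hω, h⟩ := Pool.Agent.TH585.SV.lin_tens (N := d + e)
    (s := (R : ℝ) * ((k + 1) * (k + 2)) / 2) (k := k) hd rfl hK (V := V) hV hφ0 hφ hγ hc hR X
    (by linarith) (fun P hPX hPd a ha hb hi => by
      by_contra hno
      refine hcon ⟨P, hPX, hPd, a, ⟨ha, hb⟩, hi, fun i i' hii => ?_⟩
      by_contra hge
      refine hno ⟨i, i', hii, ?_⟩
      rw [not_lt] at hge
      have h1 : (((R * ((k + 1) * (k + 2)) : ℕ) : ℤ) : ℝ) ≤
          ((2 * (P.ord (φ i) - P.ord (φ i')) : ℤ) : ℝ) := by exact_mod_cast hge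
      push_cast at h1 ⊢
      linarith)
  exact hω (hX _ (Nat.mul_pos hM hd) ω h)

end Pool.Agent.Results.MP_4329d7_ag.LinearSystemTensors
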