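import Pool.Agent.Q80.RA.Tens

/-!
MP_4329d7_ag, Q1: smooth projective varieties without tensor differentials and the projective schemes
with a finite morphism to projective space which is ramified over many general hypersurfaces.

`NoTensors k L v B` (`TH710/SP/Defs.lean`) says that the holomorphic sections of `(Ω¹) ^ ⊗ r` on the
smooth projective varieties of dimension `v` with the function field `L` are zero for `1 ≤ r ≤ B`;
`∀ B, NoTensors k L v B` is the hypothesis of Q1. Other definitions: `FinCover`, `Ramified`, `SubVar`
(`Q80/FH/Defs.lean`); `NoTensorMaps` (all rational maps from smooth projective varieties without tensor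
differentials to `X` are constant; `Q80/RA/Tens.lean`), `Unirat` (`Q80/RA/Spec.lean`),
`PurelyTranscendental` (`TH710/WH/Defs.lean`), `Special` (`W602/GT/SpecDefs.lean`).
-/

set_option autoImplicit false

namespace Pool.Agent.Results.MP_4329d7_ag.RamifiedCoverTensors

open MvPolynomial Pool.Agent.Q80.FH Pool.Agent.Q80.RA Pool.Agent.TH710.WH
open Pool.Agent.TH710.SP (NoTensors)
open Pool.Agent.W602.GT (Special)

/-- Let `k` be an algebraically closed field of characteristic zero (for instance `ℂ`), `n, d ≥ 1` and
`m ≥ 2`, `N + 1 = C(n + d, n)`, `2 N m ≤ K (m - 1)` and `q > C(N + K, N)`. Let `F 1, …, F q` be general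
forms of degree `d` in `n + 1` variables and `X` a projective scheme over `k` with a finite morphism to
projective `n`-space which is ramified with the multiplicity at least `m` over the hypersurfaces
`F i = 0`.

(1) All rational maps to `X` from smooth projective varieties, of any dimension, without nonzero
holomorphic tensor differentials of positive degree are constant.

(2) Let `V` be a closed subvariety of `X`. The following are equivalent: `V` is a point; the smooth
projective varieties which are birational to `V` have no nonzero holomorphic tensor differentials of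
positive degree; `V` is rational; `V` is unirational; `V` is special. -/
theorem result (k : Type) [Field k] [IsAlgClosed k] [CharZero k] {n d m N K q : ℕ} (hn : 1 ≤ n)
    (hd : 1 ≤ d) (hm : 2 ≤ m) (hN : N + 1 = (n + d).choose n) (hK : 2 * N * m ≤ K * (m - 1))
    (hq : (N + K).choose N < q) :
    ∃ Ψ : MvPolynomial (Fin q × Exps n d) k, Ψ ≠ 0 ∧
      ∀ F : Fin q → MvPolynomial (Fin (n + 1)) k, (∀ i, (F i).IsHomogeneous d) →
        eval (fun x => coeff x.2.1 (F x.1)) Ψ ≠ 0 →
          ∀ (r : ℕ) (X : FinCover k n r), X.Ramified F m d → NoTensorMaps X ∧
            ∀ (L : Type) [Field L] [Algebra k L] (w : ℕ) (y : Fin (n + 1) → L) (z : Fin r → L),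
              X.SubVar L w y z → [w = 0, ∀ B, NoTensors k L w B, PurelyTranscendental k L,
                Unirat k L, Special k L w (fun _ => False)].TFAE := by
  obtain ⟨Ψ, h1, h2⟩ := main_k k hn hd hm hN hK hq
  refine ⟨Ψ, h1, fun F hF hΨ r X hR => ?_⟩
  obtain ⟨B, hB⟩ := h2 F hF hΨ
  have h3 := noSpecial ((hB r X).1 hR).2
  exact ⟨noTensorMaps h3, fun L _ _ w y z hV => tfae_tensors h3 hV⟩

end Pool.Agent.Results.MP_4329d7_ag.RamifiedCoverTensors
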