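import Mathlib.Tactic

/-!
# Tensor differentials and rational connectedness: rationally connected fibres of unbounded dimension
suffice

Let `V` be the class of the smooth projective varieties `X` over `ℂ` without nonzero holomorphic tensor
differentials of positive degree. Every `X` has a maximal rationally connected fibration `X ⇢ Z`; let
`r(X) = dim Z`, so that `f(X) = dim X - r(X)` is the dimension of its general fibre. Question Q1 asks
whether `r(X) = 0`, that is, `f(X) = dim X`, for all `X` in `V`. We show that Q1 is equivalent to the
statement that the minimum of `f` over the members of `V` of dimension `n` is an unbounded function of `n`,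
and to the uniruledness of the members of `V` of dimension `n` for some multiples `n` of all integers (for
example for `n = 1!, 2!, 3!, …`).
-/

set_option autoImplicit false

namespace Pool.Agent.Results.MP_4329d7_ag.UnboundedFibres

universe u

/-- The smooth projective varieties `X` over `ℂ` with `H^0(X, (Ω_X^1)^{⊗ m}) = 0` for all `m > 0`. -/
structure TensorFree where
  /-- the varieties -/
  Var : Type u
  /-- the dimension -/
  dim : Var → ℕ
  /-- the dimension of the base of the maximal rationally connected fibration -/
  base : Var → ℕ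
  /-- `X` is rationally connected -/
  RationallyConnected : Var → Prop
  /-- `X` is uniruled -/
  Uniruled : Var → Prop

/-- The known properties. -/
structure IsKnown (T : TensorFree.{u}) : Prop where
  /-- the dimension of the base is at most `dim X` -/
  base_le : ∀ X, T.base X ≤ T.dim X
  /-- `X` is rationally connected if and only if the base is a point -/
  rc_iff : ∀ X, T.RationallyConnected X ↔ T.base X = 0
  /-- `X` is uniruled if and only if the fibres of the maximal rationally connected fibration have positive
  dimension -/
  uniruled_iff : ∀ X, T.Uniruled X ↔ T.base X < T.dim X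
  /-- the base `Z` (a smooth projective model) is not uniruled (Graber, Harris, Starr), and tensor
  differentials on `Z` can be pulled back to `X`, so that `Z` has none -/
  baseVariety : ∀ X, ∃ Z, T.dim Z = T.base X ∧ T.base Z = T.dim Z
  /-- products: the tensor differentials of `X × Y` are sums of products of those of `X` and `Y`, and the
  product of the maximal rationally connected fibrations is that of `X × Y` -/
  prod : ∀ X Y, ∃ Z, T.dim Z = T.dim X + T.dim Y ∧ T.base Z = T.base X + T.base Y
  /-- the projective line -/
  line : ∃ P, T.dim P = 1 ∧ T.base P = 0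

variable {T : TensorFree.{u}}

/-- Question Q1. -/
def Conjecture (T : TensorFree.{u}) : Prop := ∀ X : T.Var, T.RationallyConnected X

/-- The general fibre of the maximal rationally connected fibration of `X` has dimension `f`. -/
def FibreDim (X : T.Var) (f : ℕ) : Prop := T.base X + f = T.dim X

theorem lines (hT : IsKnown T) : ∀ n : ℕ, 1 ≤ n → ∃ P, T.dim P = n ∧ T.base P = 0 := by
  intro n hn
  induction n, hn using Nat.le_induction with
  | base => exact hT.line
  | succ n _ ih =>
    obtain ⟨P, h1, h2⟩ := ih
    obtain ⟨L, h3, h4⟩ := hT.line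
    obtain ⟨Z, h5, h6⟩ := hT.prod P L
    exact ⟨Z, by omega, by omega⟩

theorem powers (hT : IsKnown T) {Z : T.Var} (hZ : T.base Z = T.dim Z) :
    ∀ k : ℕ, 1 ≤ k → ∃ P, T.dim P = k * T.dim Z ∧ T.base P = T.dim P := by
  intro k hk
  induction k, hk using Nat.le_induction with
  | base => exact ⟨Z, by simp, hZ⟩
  | succ k _ ih =>
    obtain ⟨P, h1, h2⟩ := ih
    obtain ⟨W, h5, h6⟩ := hT.prod P Z
    refine ⟨W, ?_, by omega⟩
    rw [h5, h1]
    ring

/-- A counterexample with base of dimension `n₀` gives in each dimension `n ≥ 1` a variety whose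
rationally connected fibres have dimension `n mod n₀`. -/
theorem exists_small (hT : IsKnown T) {X : T.Var} (hX : ¬ T.RationallyConnected X) (n : ℕ)
    (hn : 1 ≤ n) : ∃ Y, T.dim Y = n ∧ FibreDim Y (n % T.base X) := by
  have h0 : T.base X ≠ 0 := fun e => hX ((hT.rc_iff X).2 e)
  obtain ⟨Z, hZ1, hZ2⟩ := hT.baseVariety X
  have hdiv := Nat.div_add_mod n (T.base X)
  rcases Nat.eq_zero_or_pos (n / T.base X) with hk | hk
  · obtain ⟨P, h1, h2⟩ := lines hT n hn
    refine ⟨P, h1, ?_⟩
    rw [hk, mul_zero, zero_add] at hdiv
    unfold FibreDim
    omega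
  · obtain ⟨P, h1, h2⟩ := powers hT hZ2 (n / T.base X) hk
    rw [hZ1, mul_comm] at h1
    rcases Nat.eq_zero_or_pos (n % T.base X) with hr | hr
    · refine ⟨P, by omega, ?_⟩
      unfold FibreDim
      omega
    · obtain ⟨L, h3, h4⟩ := lines hT (n % T.base X) hr
      obtain ⟨W, h5, h6⟩ := hT.prod P L
      refine ⟨W, by omega, ?_⟩
      unfold FibreDim
      omega

/-- **Rationally connected fibres of unbounded dimension suffice.** For all data with the known properties:

* if `X` without tensor differentials is not rationally connected, and `n₀ > 0` is the dimension of the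
  base of its maximal rationally connected fibration, then for each `n ≥ 1` there is a variety of dimension
  `n` without tensor differentials whose maximal rationally connected fibration has fibres of dimension
  `n mod n₀`;
* Q1 holds if and only if for every `N` there is `n ≥ 1` such that the maximal rationally connected
  fibration of every variety of dimension `n` without tensor differentials has fibres of dimension at least
  `N`;
* Q1 holds if and only if every `d ≥ 1` has a multiple `n ≥ 1` such that all varieties of dimension `n`
  without tensor differentials are uniruled. -/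
theorem result (T : TensorFree.{u}) (hT : IsKnown T) :
    (∀ X : T.Var, ¬ T.RationallyConnected X → 0 < T.base X ∧
      ∀ n : ℕ, 1 ≤ n → ∃ Y : T.Var, T.dim Y = n ∧ FibreDim Y (n % T.base X)) ∧
    (Conjecture T ↔ ∀ N : ℕ, ∃ n : ℕ, 1 ≤ n ∧ ∀ (X : T.Var) (f : ℕ), T.dim X = n →
      FibreDim X f → N ≤ f) ∧
    (Conjecture T ↔ ∀ d : ℕ, 1 ≤ d → ∃ n : ℕ, 1 ≤ n ∧ d ∣ n ∧ ∀ X : T.Var, T.dim X = n →
      T.Uniruled X) := by
  refine ⟨fun X hX => ⟨Nat.pos_of_ne_zero fun e => hX ((hT.rc_iff X).2 e),
    exists_small hT hX⟩, ⟨fun h N => ⟨N + 1, by omega, fun X f hX hf => ?_⟩, fun h X => ?_⟩,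
    ⟨fun h d hd => ⟨d, hd, dvd_rfl, fun X hX => ?_⟩, fun h X => ?_⟩⟩
  · have h1 := (hT.rc_iff X).1 (h X)
    unfold FibreDim at hf
    omega
  · by_contra hX
    obtain ⟨n, hn, hall⟩ := h (T.base X)
    obtain ⟨Y, hY1, hY2⟩ := exists_small hT hX n hn
    have h1 := hall Y _ hY1 hY2
    have h2 : T.base X ≠ 0 := fun e => hX ((hT.rc_iff X).2 e)
    have h3 := Nat.mod_lt n (Nat.pos_of_ne_zero h2)
    omega
  · rw [hT.uniruled_iff, (hT.rc_iff X).1 (h X)]
    omega
  · by_contra hX
    have h2 : T.base X ≠ 0 := fun e => hX ((hT.rc_iff X).2 e)
    obtain ⟨n, hn, hdvd, hall⟩ := h (T.base X) (Nat.pos_of_ne_zero h2)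
    obtain ⟨Y, hY1, hY2⟩ := exists_small hT hX n hn
    have h3 := (hT.uniruled_iff Y).1 (hall Y hY1)
    rw [Nat.mod_eq_zero_of_dvd hdvd] at hY2
    unfold FibreDim at hY2
    omega

end Pool.Agent.Results.MP_4329d7_ag.UnboundedFibres
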